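import Pool.Agent.helper57.MS.Spec3

set_option autoImplicit false

/-! # MP_b48e27_co, row ms:NPR -/

open Finset

namespace Pool.Agent.helper57.MS

open Pool.Agent.RRank Pool.Agent.helper26.IM

theorem NPR (hQFI : QFI_stmt) : NPR_stmt := by
  intro d hd 𝓚 h R
  refine hQFI d hd 𝓚 {P' : IndexPartition d // ¬ ∃ M ∈ R, P' ≤ M}
    (fun i => {P | ¬ i.1 ≤ P}) R (fun i => h i.1) ?_
  intro P
  constructor
  · rintro ⟨M, hM, hPM⟩ i
    exact ⟨M, fun hi => i.2 ⟨M, hM, hi⟩, hPM⟩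
  · intro H
    by_contra hno
    obtain ⟨P', hP', hle⟩ := H ⟨P, hno⟩
    exact hP' hle

end Pool.Agent.helper57.MS
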